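import Pool.Agent.X130.KD.E

/-!
# Knots in thickened surfaces with a dominated flat state

`Pool.Agent.H832R2.JR.Defs` and `Pool.Agent.H867R3.Kn.Defs` (starting library) contain the
definitions:

* `GaussWord N`: the Gauss word `G` of a knot diagram with `N` crossings on a closed oriented surface
  (of any genus); `w c = true` if the crossing `c` is positive. Diagrams on surfaces with the same Gauss
  word with over and under information are diagrams of stably equivalent knots; the bracket depends
  only on `G` and `w`;
* a state is a function `s : Fin N → Bool` (`true`: oriented smoothing, `false`: unoriented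
  smoothing; the oriented smoothing is the smoothing of type `A` exactly at the positive crossings);
  `Joined G s`: two half edges are joined in the state; `loops G s`: the number of its curves;
  `flip s S`: the state changed at the crossings in `S`;
* `fPoly G w`: the normalised bracket polynomial `f` (the Jones polynomial for `A = t^(-1/4)`);
  `writhe w`: the writhe;
* `UntiedByKinks G`: the crossings can be removed one after the other as kinks, so that the knot is
  trivial;
* `Ori G (st s) o`: `o` is an orientation of the curves of the state; `key G s o c`: the unordered pair
  of the curves which meet at the crossing `c`, together with the relation of their orientations at `c`;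
  crossings with the same key are called parallel.

`Pool.Agent.X130.KD.D`, `Pool.Agent.X130.KD.E`: `asm w s` (the crossings with the smoothing of type
`A`), `VLinked`, `vpieces G s X` (the number of components of the subgraph with the edges `X` of the
state graph: its vertices are the curves of the state, its edges the crossings), `VDominated G s M` (no
curve meets itself at a crossing, and every subgraph of the state graph with `j > 0` edges in `M`, none
of them a bridge of it, has rank at least `2 j + 2`), `Flat G s o` (changing the smoothings of a
nonempty set `S` of parallel crossings gives `v + |S| - 2` curves; on the sphere this is always so).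
-/

set_option autoImplicit false

namespace Pool.Agent.Results.MP_7bc610_gt.FlatStateGraphs

open Finset LaurentPolynomial Pool.Agent.H832R2.JR Pool.Agent.H867R3.Kn Pool.Agent.X130.KD

/-- Let a knot diagram on a closed oriented surface with `N` crossings and writhe `w` have a state `s`
with `v` curves, none of which meets itself at a crossing, such that every subgraph of the state graph
which contains `j > 0` of the `A`-smoothed crossings, none of them as a bridge, has rank at least
`2 j + 2` (or the same with the `B`-smoothed crossings). Let `o` be an orientation of the curves of
the state.

* If the classes of parallel crossings are flat and the knot has unit Jones polynomial, then it is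
  trivial: all crossings can be removed one after the other by Reidemeister moves of type I.
* Let `N > 0`, let `m` be the number of the `A`-smoothings of `s` and `e'` the number of classes of
  parallel crossings. Then the lowest exponent of `f` is `6 m - N - 2 v + 2 - 3 w`, with coefficient
  `± 1`, and if the classes are flat the coefficient at the exponent larger by `4` has absolute value
  `|e' + 1 - v|`.
* In the other case the highest exponent of `f` is `N + 2 v - 2 - 6 m' - 3 w`, `m'` the number of the
  `B`-smoothings, with coefficient `± 1`, and if the classes are flat the coefficient at the exponent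
  smaller by `4` has absolute value `|e' + 1 - v|`. -/
theorem result (N : ℕ) (G : GaussWord N) (w s : Fin N → Bool) (o : Half N → Bool)
    (ho : Ori G (st s) o) :
    (VDominated G s (asm w s) ∨ VDominated G s (asm w s)ᶜ → Flat G s o → fPoly G w = 1 →
      UntiedByKinks G) ∧
    (0 < N →
      (VDominated G s (asm w s) →
        (∀ j, (fPoly G w).coeff j ≠ 0 →
          6 * ((asm w s).card : ℤ) - N - 2 * loops G s + 2 - 3 * writhe w ≤ j) ∧
        |(fPoly G w).coeff (6 * ((asm w s).card : ℤ) - N - 2 * loops G s + 2 - 3 * writhe w)| = 1 ∧
        (Flat G s o →
          |(fPoly G w).coeff
              (6 * ((asm w s).card : ℤ) - N - 2 * loops G s + 2 - 3 * writhe w + 4)| =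
            |((Set.range (key G s o)).ncard : ℤ) + 1 - loops G s|)) ∧
      (VDominated G s (asm w s)ᶜ →
        (∀ j, (fPoly G w).coeff j ≠ 0 →
          j ≤ N + 2 * loops G s - 2 - 6 * ((asm w s)ᶜ.card : ℤ) - 3 * writhe w) ∧
        |(fPoly G w).coeff (N + 2 * loops G s - 2 - 6 * ((asm w s)ᶜ.card : ℤ) - 3 * writhe w)| = 1 ∧
        (Flat G s o →
          |(fPoly G w).coeff
              (N + 2 * loops G s - 2 - 6 * ((asm w s)ᶜ.card : ℤ) - 3 * writhe w - 4)| =
            |((Set.range (key G s o)).ncard : ℤ) + 1 - loops G s|))) := by
  have hasm : asm (fun c => !w c) s = (asm w s)ᶜ := by
    ext c
    simp only [asm, mem_filter, mem_univ, true_and, mem_compl]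
    cases s c <;> cases w c <;> simp
  refine ⟨?_, fun hN => ⟨fun h => vlow hN G w s h o ho, fun h => ?_⟩⟩
  · rintro (h | h) hF h1
    · exact vdetect G w s h o ho hF h1
    · exact vdetect G (fun c => !w c) s (by rw [hasm]; exact h) o ho hF (by
        rw [mirror, h1, map_one])
  · obtain ⟨l1, l2, l3⟩ := vlow hN G (fun c => !w c) s (by rw [hasm]; exact h) o ho
    rw [hasm, M1_writhe, mirror] at l1 l2 l3
    rw [invert_apply] at l2
    refine ⟨fun j hj => ?_, ?_, fun hF => ?_⟩
    · have h2 := l1 (-j) (by rw [invert_apply, neg_neg]; exact hj)
      linarith
    · rw [← l2]
      congr 2
      ring
    · have l4 := l3 hF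
      rw [invert_apply] at l4
      rw [← l4]
      congr 2
      ring

end Pool.Agent.Results.MP_7bc610_gt.FlatStateGraphs
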