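import Pool.Agent.X315.VP.Main

/-!
# Unit Jones polynomials of virtual links with powers of braids in a virtual braid word

Diagrams (starting library `Pool.Agent.H891R2.Jones.Diagram`): `Diagram P` (oriented diagrams with marked
points `P`; the arcs only say which marked points are joined, so these are diagrams of links in thickened
surfaces, that is, virtual link diagrams), `Diagram.fPoly` (the normalised bracket `(-A^{-3})^{w(D)} ⟨D⟩`,
a state sum in which all loops count equally), `Diagram.IsClosed` (the pieces of the diagram fit together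
to closed oriented curves), `Outer m` (the part of an oriented diagram outside a box through which `m`
strands run, each of them in one of the two directions `O.up`), `Outer.close` (fills the box with `m`
vertical strands).  `Pool.Agent.W639.RB.Defs`, `Pool.Agent.W705.JV.Defs` (starting library): `Letter m` (the
letters `σ_i^{±1}`), `VLetter m` (these letters and the virtual crossings `v_i`), `drawV O w` (draws the
virtual braid word `w` in the box of `O`), `trV` (the transposition of a letter).
`Pool.Agent.Y463.SK.Defs` (starting library): `powW w n` (the power `w^n`, `n ∈ ℤ`, of a classical braid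
word), `permW w` (its permutation), `IsPure w` (`permW w = 1`).

Definitions of `Pool.Agent.X315.VP.Defs`: `diaV O w` (the diagram with the virtual braid word `w` in the box),
`cl w` (a classical word as a virtual word), `pmV w` (the permutation of a virtual braid word),
`multiV w v n = w_1^{n_1} v_1 w_2^{n_2} v_2 ⋯ w_k^{n_k} v_k` for classical words `w_i` and virtual words `v_i`,
`HitsV O w v F` (the `n ∈ ℤ` for which the diagram with `w^n v` has the normalised bracket `F`).

The proof is the one for classical braid words (library `Pool.Agent.Y463.SK`: modulo `A + 1` the pure braids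
act trivially in the Temperley-Lieb algebra over `ℤ[A, A⁻¹]`); the virtual crossings after the power are
moved into the linear functional, those before it into the outside.
-/

set_option autoImplicit false

namespace Pool.Agent.Results.MP_7bc610_gt.PowersInVirtualBraids

open Finset LaurentPolynomial Pool.Agent.H891R2.Jones Pool.Agent.W639.RB Pool.Agent.Y463.SK
  Pool.Agent.W705.JV Pool.Agent.X315.VP

theorem one_family {m : ℕ} (hm : 0 < m) (O : Outer m) (w : List (Letter m))
    (v : List (VLetter m)) (r : ℕ) (hr : IsPure (powW w r)) (s : ℤ) (F : ℤ[T;T⁻¹]) :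
    (∀ q : ℤ, (r : ℤ) * q + s ∈ HitsV O w v F) ∨
    ({q : ℤ | (r : ℤ) * q + s ∈ HitsV O w v F}.Finite ∧
      {q : ℤ | (r : ℤ) * q + s ∈ HitsV O w v F}.ncard ≤ m.factorial) := by
  have h1 : ∀ n : ℤ, n ∈ HitsV O w v F ↔ ffV O (powL (toN w) n) v = F := by
    intro n
    unfold HitsV
    rw [Set.mem_ofPred, diaV_cl, toN_pow]
  simp only [h1]
  have hp : permL (powL (toN w) r) = 1 := by
    rw [← toN_pow]; exact permL_of_pure hr
  rcases single_generalV hm O (toN w) (toN_lt w) r hp s v F with h | key
  · exact Or.inl h
  · right
    have hfin : {q : ℤ | ffV O (powL (toN w) (r * q + s)) v = F}.Finite := by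
      by_contra hinf
      obtain ⟨Z, hZ, hc⟩ := Set.Infinite.exists_subset_card_eq hinf (m.factorial + 1)
      have := key Z (fun z hz => hZ hz)
      omega
    refine ⟨hfin, ?_⟩
    rw [Set.ncard_eq_toFinset_card _ hfin]
    exact key _ (fun z hz => (hfin.mem_toFinset).1 hz)

open Classical in
/-- **Powers of braids in a virtual braid word.**  Let `O` be the part of an oriented diagram on a surface
(virtual link diagram) outside a box through which `m ≥ 1` strands run (in arbitrary directions), and let
`F` be any Laurent polynomial, for example `1`.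

* Let `w_1, …, w_k` be classical braid words and `v_1, …, v_k` virtual braid words on `m` strands, let
  `r_i ≥ 0` be such that `w_i^{r_i}` is pure (for instance `r_i = m!`), let `s ∈ ℤ^k`, and for `q ∈ ℤ^k` let
  `K(q)` be the diagram obtained by drawing the virtual braid `w_1^{n_1} v_1 w_2^{n_2} v_2 ⋯ w_k^{n_k} v_k`,
  `n_i = r_i q_i + s_i`, in the box.  If `O` closes to a closed diagram and the permutation of this virtual
  braid for `q = 0` preserves the directions of the strands, then all `K(q)` are closed diagrams.  Either
  all the `K(q)`, `q ∈ ℤ^k`, have the normalised bracket `F`, or for all finite sets `A_1, …, A_k` of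
  integers at most `m! ∑_i ∏_{j ≠ i} |A_j|` of the `∏_j |A_j|` diagrams `K(q)` with `q ∈ A_1 × ⋯ × A_k` have it.
* Let `w` be a classical and `v` a virtual braid word on `m` strands and `r ≥ 1` such that `w^r` is pure.
  The set of the integers `n` for which the diagram with the virtual braid `w^n v` in the box has the
  normalised bracket `F` is the union of some full residue classes modulo `r` and of a finite set with at
  most `r m!` elements. -/
theorem result (m : ℕ) (hm : 0 < m) (O : Outer m) (F : ℤ[T;T⁻¹]) :
    (∀ (k : ℕ) (w : Fin k → List (Letter m)) (v : Fin k → List (VLetter m)) (r : Fin k → ℕ)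
      (s : Fin k → ℤ), (∀ i, IsPure (powW (w i) (r i))) →
      (O.close.IsClosed → (∀ j, O.up (pmV (multiV w v s) j) = O.up j) → ∀ q : Fin k → ℤ,
        (diaV O (multiV w v (fun i => r i * q i + s i))).IsClosed) ∧
      ((∀ q : Fin k → ℤ, (diaV O (multiV w v (fun i => r i * q i + s i))).fPoly = F) ∨
        ∀ A : Fin k → Finset ℤ, ((Fintype.piFinset A).filter
          (fun q => (diaV O (multiV w v (fun i => r i * q i + s i))).fPoly = F)).card ≤
            m.factorial * ∑ i, ∏ j ∈ univ.erase i, (A j).card)) ∧
    (∀ (w : List (Letter m)) (v : List (VLetter m)) (r : ℕ), 0 < r → IsPure (powW w r) →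
      ∃ S : Finset ℤ, S ⊆ Finset.Ico 0 (r : ℤ) ∧
        (∀ n : ℤ, n % r ∈ S → n ∈ HitsV O w v F) ∧
        {n : ℤ | n ∈ HitsV O w v F ∧ n % r ∉ S}.Finite ∧
        {n : ℤ | n ∈ HitsV O w v F ∧ n % r ∉ S}.ncard ≤ r * m.factorial) ∧
    (∀ w : List (Letter m), IsPure (powW w m.factorial)) := by
  refine ⟨?_, ?_, ?_⟩
  · intro k w v r s hr
    exact ⟨fun hO hv q => multi_closedV O w v r hr s hO hv q,
      multi_generalV hm O w v r hr s F⟩
  · intro w v r hr0 hr
    have hr0' : (0 : ℤ) < r := by exact_mod_cast hr0
    set S : Finset ℤ := (Finset.Ico 0 (r : ℤ)).filter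
      (fun s => ∀ q : ℤ, (r : ℤ) * q + s ∈ HitsV O w v F) with hS
    have hdecomp : ∀ n : ℤ, (r : ℤ) * (n / r) + n % r = n := fun n => Int.mul_ediv_add_emod n r
    have hmodmem : ∀ n : ℤ, n % r ∈ Finset.Ico 0 (r : ℤ) := fun n =>
      Finset.mem_Ico.2 ⟨Int.emod_nonneg _ hr0'.ne', Int.emod_lt_of_pos _ hr0'⟩
    have hsub : {n : ℤ | n ∈ HitsV O w v F ∧ n % r ∉ S} ⊆
        ⋃ s ∈ (Finset.Ico 0 (r : ℤ)) \ S,
          (fun q : ℤ => (r : ℤ) * q + s) '' {q : ℤ | (r : ℤ) * q + s ∈ HitsV O w v F} := by
      rintro n ⟨h1, h2⟩
      rw [Set.mem_iUnion₂]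
      refine ⟨n % r, Finset.mem_sdiff.2 ⟨hmodmem n, h2⟩, n / r, ?_, hdecomp n⟩
      show (r : ℤ) * (n / r) + n % r ∈ HitsV O w v F
      rw [hdecomp]
      exact h1
    have hpiece : ∀ s ∈ (Finset.Ico 0 (r : ℤ)) \ S,
        {q : ℤ | (r : ℤ) * q + s ∈ HitsV O w v F}.Finite ∧
        {q : ℤ | (r : ℤ) * q + s ∈ HitsV O w v F}.ncard ≤ m.factorial := by
      intro s hs
      rw [Finset.mem_sdiff, hS, Finset.mem_filter] at hs
      rcases one_family hm O w v r hr s F with h | h
      · exact absurd ⟨hs.1, h⟩ hs.2
      · exact h
    have hfinU : (⋃ s ∈ (Finset.Ico 0 (r : ℤ)) \ S,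
          (fun q : ℤ => (r : ℤ) * q + s) '' {q : ℤ | (r : ℤ) * q + s ∈ HitsV O w v F}).Finite := by
      refine Set.Finite.biUnion (Finset.finite_toSet _) ?_
      intro s hs
      exact (hpiece s hs).1.image _
    refine ⟨S, Finset.filter_subset _ _, ?_, hfinU.subset hsub, ?_⟩
    · intro n hn
      rw [hS, Finset.mem_filter] at hn
      have := hn.2 (n / r)
      rwa [hdecomp] at this
    · refine (Set.ncard_le_ncard hsub hfinU).trans ?_
      refine (Finset.set_ncard_biUnion_le _ _).trans ?_
      have h1 : ∀ s ∈ (Finset.Ico 0 (r : ℤ)) \ S,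
          ((fun q : ℤ => (r : ℤ) * q + s) '' {q : ℤ | (r : ℤ) * q + s ∈ HitsV O w v F}).ncard ≤
            m.factorial := fun s hs =>
        (Set.ncard_image_le (hpiece s hs).1).trans (hpiece s hs).2
      refine (Finset.sum_le_card_nsmul _ _ _ h1).trans ?_
      rw [smul_eq_mul]
      refine Nat.mul_le_mul_right _ ?_
      refine (Finset.card_le_card Finset.sdiff_subset).trans ?_
      rw [Int.card_Ico]
      omega
  · intro w
    have hpow : ∀ n : ℕ, permW (powW w (n : ℤ)) = permW w ^ n := by
      intro n
      induction n with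
      | zero => simp [powW, permW]
      | succ n ih =>
        have h1 : powW w ((n + 1 : ℕ) : ℤ) = w ++ powW w (n : ℤ) := by
          show (List.replicate (n + 1) w).flatten = w ++ (List.replicate n w).flatten
          rw [List.replicate_succ, List.flatten_cons]
        rw [h1, pow_succ', ← ih]
        unfold permW
        rw [List.map_append, List.prod_append]
    unfold IsPure
    rw [hpow]
    have h2 : Fintype.card (Equiv.Perm (Fin m)) = m.factorial := by
      rw [Fintype.card_perm, Fintype.card_fin]
    rw [← h2]
    exact pow_card_eq_one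

end Pool.Agent.Results.MP_7bc610_gt.PowersInVirtualBraids
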