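import Pool.Agent.X315.RV.Main

/-!
# Random virtual braid words with independent letters: the normalised bracket modulo `N`

Diagrams (starting library `Pool.Agent.H891R2.Jones.Diagram`): `Diagram P` (oriented diagrams with marked
points; the arcs only say which marked points are joined, so these are diagrams of links in thickened
surfaces, that is, virtual link diagrams; planar diagrams are a special case), `Diagram.fPoly` (the
normalised bracket `(-A^{-3})^{w(D)} ⟨D⟩`), `Outer m` (the part of an oriented diagram outside a box
through which `m` strands run, with arbitrary directions).  `Pool.Agent.W705.JV.Defs`: `VLetter m` (the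
letters of the virtual braid group on `m` strands: `inl (true, i)`, `inl (false, i)` are the classical
letters `σ_i`, `σ_i⁻¹` and `inr i` is the virtual crossing `v_i`), `diagramV O w` (the diagram obtained by
drawing the word `w : Fin n → VLetter m` in the box of `O`), `permV w` (the permutation of `w`).
`Pool.Agent.Y463.MP.Defs`: `nonmult N f` (the number of the coefficients of `f` not divisible by `N`),
`osize O`, `dsize D` (the number of crossings and marked points of an outside, of a diagram).
`Pool.Agent.X315.RV.Defs`: `IsLaws η p` (`p j` is a probability distribution on the letters which gives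
every classical letter at least the probability `η`), `PrI p E` (the probability of `E` for a word whose
letters are independent, the `j`-th with the distribution `p j`).

Proof: given the places and the kinds (classical or virtual) of all letters, the signs of the classical
letters are independent and nondegenerate, so the theorem on crossing changes in virtual braid words
(starting library `Pool.Agent.Y463.VT`) applies if there are many pairs of consecutive classical letters
at neighbouring places; that there are few has an exponentially small probability, by a generating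
function for the number of these pairs.  Every permutation of the right sign has at least a fixed
probability, because the classical letters reach it in a fixed number of steps.
-/

set_option autoImplicit false

namespace Pool.Agent.Results.MP_7bc610_gt.RandomVirtualBraidsModN

open LaurentPolynomial Pool.Agent.H891R2.Jones Pool.Agent.W639.RB Pool.Agent.Y463.MP Pool.Agent.X315.RV
open Pool.Agent.W705.JV (VLetter diagramV permV)

/-- **Random virtual braid words modulo `N`.**  Let `m ≥ 3` and `η > 0`.  There are `r < 1`, `c > 0` and
`l0`, depending on `m` and `η` only, with the following properties.  Consider random virtual braid words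
of length `n` with independent letters; the distributions of the letters are arbitrary and may depend on
the place in the word, but every `σ_i` and every `σ_i⁻¹` has at least the probability `η` at every place
(the virtual crossings may have probability `0`, so words in the classical braid group are included).

* For `n ≥ l0` every permutation `τ` with `sign τ = (-1)^n` (the sign of the permutation of any word of
  length `n`) is the permutation of the random word with probability at least `c`.
* There is `C`, depending on `m` and `η` only, such that for all `N ≥ 2`, all outsides `O` of a box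
  with `m` strands (part of a diagram on any surface), all Laurent polynomials `g` (for instance `g = 1`)
  and all `n` the diagram with the random word of length `n` in the box has a normalised bracket
  congruent to `g` modulo `N` with probability at most `C r^n`; and for `n ≥ l0` and every set `Q` of
  permutations the same is true under the condition that the permutation of the word belongs to `Q`
  (for instance that the closure is a virtual knot, or that a given diagram of a knot stays one).
* For all `N ≥ 2` and `κ` there are `δ > 0` and `C` such that for all outsides with at most `κ (n + 1)`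
  crossings and marked points, with probability at most `C r^n` at most `δ n` coefficients of the
  normalised bracket are not divisible by `N`, and with at most this probability the normalised bracket
  is congruent modulo `N` to the one of some diagram (on any surface) with at most `δ n / 8` crossings
  and marked points; and for `n ≥ l0` again also under any condition on the permutation. -/
theorem result (m : ℕ) (hm : 3 ≤ m) (η : ℝ) (hη : 0 < η) : ∃ (r c : ℝ) (l0 : ℕ), 0 < r ∧ r < 1 ∧ 0 < c ∧ 
    (∀ (n : ℕ) (p : Fin n → VLetter m → ℝ), IsLaws η p → l0 ≤ n → ∀ τ : Equiv.Perm (Fin m), 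
      Equiv.Perm.sign τ = (-1) ^ n → c ≤ PrI p (fun w => permV w = τ)) ∧
    (∃ C : ℝ, ∀ N : ℕ, 2 ≤ N → ∀ (O : Outer m) (g : ℤ[T;T⁻¹]) (n : ℕ) (p : Fin n → VLetter m → ℝ), 
      IsLaws η p → 
        PrI p (fun w => (N : ℤ[T;T⁻¹]) ∣ (diagramV O w).fPoly - g) ≤ C * r ^ n ∧ 
        (l0 ≤ n → ∀ Q : Set (Equiv.Perm (Fin m)), 
          PrI p (fun w => permV w ∈ Q ∧ (N : ℤ[T;T⁻¹]) ∣ (diagramV O w).fPoly - g) ≤ 
            C * r ^ n * PrI p (fun w => permV w ∈ Q))) ∧
    (∀ N : ℕ, 2 ≤ N → ∀ κ : ℝ, ∃ δ C : ℝ, 0 < δ ∧ ∀ (O : Outer m) (n : ℕ) (p : Fin n → VLetter m → ℝ), 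
      IsLaws η p → (osize O : ℝ) ≤ κ * (n + 1) → 
        PrI p (fun w => (nonmult N (diagramV O w).fPoly : ℝ) ≤ δ * n) ≤ C * r ^ n ∧ 
        PrI p (fun w => ∃ (P : Type) (_ : Finite P) (D : Diagram P), (dsize D : ℝ) ≤ δ / 8 * n ∧ 
          (N : ℤ[T;T⁻¹]) ∣ (diagramV O w).fPoly - D.fPoly) ≤ C * r ^ n ∧ 
        (l0 ≤ n → ∀ Q : Set (Equiv.Perm (Fin m)), 
          PrI p (fun w => permV w ∈ Q ∧ (nonmult N (diagramV O w).fPoly : ℝ) ≤ δ * n) ≤ 
            C * r ^ n * PrI p (fun w => permV w ∈ Q) ∧ 
          PrI p (fun w => permV w ∈ Q ∧ ∃ (P : Type) (_ : Finite P) (D : Diagram P), 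
            (dsize D : ℝ) ≤ δ / 8 * n ∧ (N : ℤ[T;T⁻¹]) ∣ (diagramV O w).fPoly - D.fPoly) ≤ 
              C * r ^ n * PrI p (fun w => permV w ∈ Q))) := by
  have hη' : 0 < min η 1 := lt_min hη one_pos
  have hlaw : ∀ {n : ℕ} {p : Fin n → VLetter m → ℝ}, IsLaws η p → IsLaws (min η 1) p := fun h => 
    ⟨h.nonneg, h.sum_one, fun j x => (min_le_left _ _).trans (h.classical j x)⟩
  obtain ⟨l0, hmany⟩ := many (m := m) (by omega) hη'
  obtain ⟨r, hr0, hr1, ⟨C1, h1⟩, h2⟩ := main hm hη' (min_le_right η 1)
  have hc : 0 < (min η 1) ^ l0 := pow_pos hη' _
  set c : ℝ := (min η 1) ^ l0 with hcdef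
  have hpow : ∀ n : ℕ, 0 ≤ r ^ n := fun n => by positivity
  refine ⟨r, c, l0, hr0, hr1, hc, fun n p hp hn τ hτ => hmany τ n hn hτ p (hlaw hp), 
    ⟨max C1 (max C1 0 / c), ?_⟩, ?_⟩
  · intro N hN O g n p hp
    have e1 := h1 N hN O g n p (hlaw hp)
    refine ⟨e1.trans (mul_le_mul_of_nonneg_right (le_max_left _ _) (hpow n)), fun hn Q => ?_⟩
    refine (cond hc p (hlaw hp) (fun τ hτ => hmany τ n hn hτ p (hlaw hp)) _ Q C1 _ (hpow n) e1).trans ?_
    exact mul_le_mul_of_nonneg_right (mul_le_mul_of_nonneg_right (le_max_right _ _) (hpow n)) 
      (PrI_nonneg p hp.nonneg _)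
  · intro N hN κ
    obtain ⟨δ, hδ, C2, h2'⟩ := h2 N hN κ
    obtain ⟨C3, h3⟩ := short hr0 hr1 N κ δ hδ C2 h2'
    have k1 : C2 ≤ max (max C2 C3) (max (max C2 0 / c) (max C3 0 / c)) := 
      (le_max_left _ _).trans (le_max_left _ _)
    have k2 : C3 ≤ max (max C2 C3) (max (max C2 0 / c) (max C3 0 / c)) := 
      (le_max_right _ _).trans (le_max_left _ _)
    have k3 : max C2 0 / c ≤ max (max C2 C3) (max (max C2 0 / c) (max C3 0 / c)) := 
      (le_max_left _ _).trans (le_max_right _ _)
    have k4 : max C3 0 / c ≤ max (max C2 C3) (max (max C2 0 / c) (max C3 0 / c)) := 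
      (le_max_right _ _).trans (le_max_right _ _)
    refine ⟨δ, max (max C2 C3) (max (max C2 0 / c) (max C3 0 / c)), hδ, ?_⟩
    intro O n p hp hO
    have e2 := h2' O n p (hlaw hp) hO
    have e3 := h3 O n p (hlaw hp) hO
    refine ⟨e2.trans (mul_le_mul_of_nonneg_right k1 (hpow n)), 
      e3.trans (mul_le_mul_of_nonneg_right k2 (hpow n)), fun hn Q => ⟨?_, ?_⟩⟩
    · refine (cond hc p (hlaw hp) (fun τ hτ => hmany τ n hn hτ p (hlaw hp)) _ Q C2 _ (hpow n) e2).trans ?_
      exact mul_le_mul_of_nonneg_right (mul_le_mul_of_nonneg_right k3 (hpow n)) 
        (PrI_nonneg p hp.nonneg _)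
    · refine (cond hc p (hlaw hp) (fun τ hτ => hmany τ n hn hτ p (hlaw hp)) _ Q C3 _ (hpow n) e3).trans ?_
      exact mul_le_mul_of_nonneg_right (mul_le_mul_of_nonneg_right k4 (hpow n)) 
        (PrI_nonneg p hp.nonneg _)

end Pool.Agent.Results.MP_7bc610_gt.RandomVirtualBraidsModN
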